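import Mathlib
import Pool.Agent.H39R3.MomMain
import Pool.Agent.H39R3.MomShift

namespace Pool.Agent.Results.MP_f9aece_nt.RationalExponents

open Filter

/-- the moment `a(T) = ∫_0^1 |ζ(1/2 + i x + i u T)|^β du` of the randomly shifted zeta function -/
noncomputable def a (β x T : ℝ) : ℝ :=
  ∫ u in (0:ℝ)..1, ‖riemannZeta (1 / 2 + (x : ℂ) * Complex.I + (u : ℂ) * (T : ℂ) * Complex.I)‖ ^ β

/-- the arithmetic factor `∏_p (1 - 1/p)^(β²/4) ∑_m d_{β/2}(p^m)² p^(-m)` of the conjectured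
constant `c(β)`; here `d_k(p^m) = k (k+1) ⋯ (k+m-1) / m!` -/
noncomputable def arith (β : ℝ) : ℝ :=
  ∏' p : Nat.Primes, ((1 - 1 / (p : ℝ)) ^ (β ^ 2 / 4) *
    ∑' m : ℕ, (∏ i ∈ Finset.range m, (β / 2 + i) / ((i : ℝ) + 1)) ^ 2 * (1 / (p : ℝ)) ^ m)

theorem arith_eq (β : ℝ) : arith β = Pool.Agent.H306R2.aF (β / 2) := by
  unfold arith Pool.Agent.H306R2.aF Pool.Agent.H306R2.lc
  rw [show (β / 2) ^ 2 = β ^ 2 / 4 by ring]

theorem a_eq (β x T : ℝ) : a β x T =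
    ∫ u in (0:ℝ)..1, (fun t : ℝ => ‖riemannZeta (1 / 2 + t * Complex.I)‖ ^ β) (x + T * u) := by
  unfold a
  refine intervalIntegral.integral_congr fun u _ => ?_
  simp only
  congr 3
  push_cast
  ring

/-- reduction to a bound for the constant -/
theorem of_const (β : ℚ) (hβ : 2 < β) (j : ℕ) (hj : 1 ≤ j) (hjκ : (j : ℝ) < (β : ℝ) / 2) (c : ℝ)
    (hc : c < Pool.Agent.H306R2.aF ((β : ℝ) / 2) *
      (Real.exp (Pool.Agent.H39R3.Mom.expo ((β : ℝ) / 2) j) / Real.Gamma ((β : ℝ) ^ 2 / 4 + 1)))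
    (x : ℝ) : ∀ᶠ T : ℝ in atTop, c * Real.log T ^ ((β : ℝ) ^ 2 / 4) ≤ a β x T := by
  have hβR : (2 : ℝ) < (β : ℝ) := by exact_mod_cast hβ
  obtain ⟨c', hc1, hc2⟩ := exists_between hc
  have e : (((β / 2 : ℚ)) : ℝ) = (β : ℝ) / 2 := by push_cast; ring
  have e2 : ((β : ℝ) / 2) ^ 2 = (β : ℝ) ^ 2 / 4 := by ring
  have e3 : 2 * ((β : ℝ) / 2) = (β : ℝ) := by ring
  have h := Pool.Agent.H39R3.Mom.master_rat (β / 2) (by linarith) j hj (by
    have : (j : ℝ) < ((β / 2 : ℚ) : ℝ) := by rw [e]; exact hjκ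
    exact_mod_cast this) c' (by rw [e, e2]; exact hc2)
  rw [e, e2, e3] at h
  have hcont : Continuous (fun t : ℝ => ‖riemannZeta (1 / 2 + t * Complex.I)‖ ^ (β : ℝ)) :=
    Pool.Agent.H306R2.zeta_line_continuous.norm.rpow_const
      (fun t => Or.inr (by linarith))
  have h2 := Pool.Agent.H39R3.Mom.shift _ hcont (fun t => by positivity) ((β : ℝ) ^ 2 / 4)
    (by positivity) c c' hc1 h x
  filter_upwards [h2] with T hT
  rw [a_eq]
  exact hT

/-- Explicit lower bounds for the moments of zeta with rational exponent `β > 2`: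
(1) `liminf a(T) / (log T)^(β²/4) ≥ exp (-8 √β) * arith β / Γ(β²/4 + 1)` for all rational `β > 2`;
(2) for every `A < 4/e` the same with `A ^ (β²/4)` in place of `exp (-8 √β)`, for all rational
`β ≥ B(A)`. -/
theorem result :
    (∀ β : ℚ, 2 < β → 0 < arith β ∧ ∀ x : ℝ, ∀ᶠ T : ℝ in atTop,
      Real.exp (-(8 * √(β : ℝ))) * (arith β / Real.Gamma ((β : ℝ) ^ 2 / 4 + 1)) *
        Real.log T ^ ((β : ℝ) ^ 2 / 4) ≤ a β x T) ∧
    (∀ A : ℝ, 0 < A → A < 4 / Real.exp 1 → ∃ B : ℝ, ∀ β : ℚ, B ≤ (β : ℝ) →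
      ∀ x : ℝ, ∀ᶠ T : ℝ in atTop,
      A ^ ((β : ℝ) ^ 2 / 4) * (arith β / Real.Gamma ((β : ℝ) ^ 2 / 4 + 1)) *
        Real.log T ^ ((β : ℝ) ^ 2 / 4) ≤ a β x T) := by
  constructor
  · intro β hβ
    have hβR : (2 : ℝ) < (β : ℝ) := by exact_mod_cast hβ
    have hpos : 0 < Pool.Agent.H306R2.aF ((β : ℝ) / 2) :=
      Pool.Agent.H306R2.aF_pos (by linarith)
    refine ⟨by rw [arith_eq]; exact hpos, fun x => ?_⟩
    obtain ⟨j, hj1, hj2, hj3⟩ := Pool.Agent.H39R3.Mom.expo_all (κ := (β : ℝ) / 2) (by linarith)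
    refine of_const β hβ j hj1 hj2 _ ?_ x
    rw [arith_eq]
    have hG : 0 < Real.Gamma ((β : ℝ) ^ 2 / 4 + 1) := Real.Gamma_pos_of_pos (by positivity)
    have hlt : Real.exp (-(8 * √(β : ℝ))) <
        Real.exp (Pool.Agent.H39R3.Mom.expo ((β : ℝ) / 2) j) := by
      apply Real.exp_lt_exp.mpr
      refine lt_of_lt_of_le ?_ hj3
      have h1 : 11 * √((β : ℝ) / 2) < 8 * √(β : ℝ) := by
        have e1 : 11 * √((β : ℝ) / 2) = √(121 / 2 * (β : ℝ)) := by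
          rw [show (121 / 2 * (β : ℝ)) = 11 ^ 2 * ((β : ℝ) / 2) by ring,
            Real.sqrt_mul (by positivity), Real.sqrt_sq (by norm_num)]
        have e2 : 8 * √(β : ℝ) = √(64 * (β : ℝ)) := by
          rw [show (64 : ℝ) = 8 ^ 2 by norm_num, Real.sqrt_mul (by positivity),
            Real.sqrt_sq (by norm_num)]
        rw [e1, e2]
        apply Real.sqrt_lt_sqrt (by positivity)
        linarith
      linarith
    calc Real.exp (-(8 * √(β : ℝ))) *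
          (Pool.Agent.H306R2.aF ((β : ℝ) / 2) / Real.Gamma ((β : ℝ) ^ 2 / 4 + 1))
        < Real.exp (Pool.Agent.H39R3.Mom.expo ((β : ℝ) / 2) j) *
          (Pool.Agent.H306R2.aF ((β : ℝ) / 2) / Real.Gamma ((β : ℝ) ^ 2 / 4 + 1)) :=
          mul_lt_mul_of_pos_right hlt (by positivity)
      _ = _ := by ring
  · intro A hA hA4
    obtain ⟨A', hA1, hA2⟩ := exists_between hA4
    obtain ⟨B, hB⟩ := Pool.Agent.H39R3.Mom.expo_large (hA.trans hA1) hA2
    refine ⟨max (2 * B) 4, fun β hβ x => ?_⟩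
    have hβ4 : (4 : ℝ) ≤ (β : ℝ) := le_trans (le_max_right _ _) hβ
    have hβB : 2 * B ≤ (β : ℝ) := le_trans (le_max_left _ _) hβ
    have hβ2 : 2 < β := by
      have : (2 : ℝ) < (β : ℝ) := by linarith
      exact_mod_cast this
    obtain ⟨j, hj1, hj2, hj3⟩ := hB ((β : ℝ) / 2) (by linarith)
    refine of_const β hβ2 j hj1 hj2 _ ?_ x
    rw [arith_eq]
    have hpos : 0 < Pool.Agent.H306R2.aF ((β : ℝ) / 2) :=
      Pool.Agent.H306R2.aF_pos (by linarith)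
    have hG : 0 < Real.Gamma ((β : ℝ) ^ 2 / 4 + 1) := Real.Gamma_pos_of_pos (by positivity)
    have hA'0 : 0 < A' := hA.trans hA1
    have hlt : A ^ ((β : ℝ) ^ 2 / 4) <
        Real.exp (Pool.Agent.H39R3.Mom.expo ((β : ℝ) / 2) j) := by
      refine lt_of_lt_of_le (Real.rpow_lt_rpow hA.le hA1 (by positivity)) ?_
      rw [Real.rpow_def_of_pos hA'0]
      apply Real.exp_le_exp.mpr
      refine le_trans (le_of_eq ?_) hj3
      ring
    calc A ^ ((β : ℝ) ^ 2 / 4) *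
          (Pool.Agent.H306R2.aF ((β : ℝ) / 2) / Real.Gamma ((β : ℝ) ^ 2 / 4 + 1))
        < Real.exp (Pool.Agent.H39R3.Mom.expo ((β : ℝ) / 2) j) *
          (Pool.Agent.H306R2.aF ((β : ℝ) / 2) / Real.Gamma ((β : ℝ) ^ 2 / 4 + 1)) :=
          mul_lt_mul_of_pos_right hlt (by positivity)
      _ = _ := by ring

end Pool.Agent.Results.MP_f9aece_nt.RationalExponents
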